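import Mathlib
import Pool.Agent.TH497.PW.IntFlow
import Pool.Agent.TH362.FP.Pos
import Pool.Agent.Y335.FL.Main
import Pool.Agent.H789.F5.Lift

set_option autoImplicit false

/-!
# Graphs in which at most 125 edge cuts of size three avoid the short circuits (MP_c8786f_co)

Let `G` be a bridgeless multigraph and let `F` be the union of cycles `C_1, ..., C_m`, each with at
most eleven edges outside of the union of the earlier ones (`m = 0` is allowed; `F` can be the union
of all circuits with at most eleven edges).  Suppose that at most 125 edge cuts with exactly three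
edges avoid `F`, or that, for every `t ≥ 126` and all pairwise disjoint vertex sets
`X_1, ..., X_t` with exactly three boundary edges each, none of them in `F`, at most `(t + 23) / 2`
edges join different sets `X_i`.  Then `G` has a nowhere-zero 5-flow, and the characteristic
polynomial of its bond matroid is positive at all integers `q ≥ 5`.  In particular this holds for all
bridgeless graphs with at most 125 edge cuts of size three (`fewThreeCuts`), and if no 126 pairwise
disjoint vertex sets have exactly three boundary edges (`noDisjointFamily`).  The order, the degrees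
and the connectivity are arbitrary.

Proof.  By the starting library one may contract `F`.  Both classes (now `F` is empty) are closed
under contractions.  Let `H` be a counterexample with as few edges as possible.  By the starting
results `H` has girth at least twelve and all degrees are at least three (apart from isolated
vertices).  No nonempty edge set of the form `E(H[X])` is `Z_5`-connected: otherwise a flow of
`H / E(H[X])` could be lifted.  By the covering theorem of the starting files, `X` has a partition
into `c` classes with less than `5 (c - 1) / 3` crossing edges, and by induction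
`3 |E(H[X])| + 6 ≤ 5 |X|`.  So the average degree `D` of `H` is less than `10 / 3`.  Let `n` be the
number of the vertices and `k` the number of those of degree three; then `D ≥ 4 - k / n`.  The Moore
bound for irregular graphs (Alon, Hoory, Linial) `n ≥ 2 ∑_{i < 6} (D - 1) ^ i` gives
`k ≥ (4 - D) n ≥ 2 (4 - D) ∑_{i < 6} (D - 1) ^ i ≥ 126` for `3 ≤ D ≤ 10 / 3`.  Moreover the sum of
the degrees which are at least four is at most `2 k - 24`, so that at least `(k + 24) / 2` edges
join two vertices of degree three.
-/

namespace Pool.Agent.Results.MP_c8786f_co.FewThreeCuts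

open Pool.Agent.TH497.PW

variable {V E : Type}

/-- The edges with exactly one end in `X`. -/
def boundary [DecidableEq V] [Fintype E] (src dst : E → V) (X : Finset V) : Finset E :=
  Finset.univ.filter (fun e => ¬ (src e ∈ X ↔ dst e ∈ X))

/-- Kirchhoff's law. -/
def IsFlow [DecidableEq V] [Fintype E] (src dst : E → V) (f : E → ℤ) : Prop :=
  ∀ v : V, ∑ e ∈ Finset.univ.filter (fun e => src e = v), f e
    = ∑ e ∈ Finset.univ.filter (fun e => dst e = v), f e

/-- `C` is the support of a flow with values in `{0, 1, -1}` (a union of edge-disjoint circuits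
which can be oriented). -/
def IsCycle [DecidableEq V] [Fintype E] (src dst : E → V) (C : Finset E) : Prop :=
  ∃ z : E → ℤ, IsFlow src dst z ∧ (∀ e, z e = 0 ∨ z e = 1 ∨ z e = -1) ∧ ∀ e, z e ≠ 0 ↔ e ∈ C

/-- The union of the sets `C i`. -/
def unionOf [Fintype E] [DecidableEq E] {m : ℕ} (C : Fin m → Finset E) : Finset E :=
  Finset.univ.biUnion C

/-- All `C i` are cycles, each with at most eleven edges outside of the union of the earlier
ones. -/
def ShortCycles [DecidableEq V] [Fintype E] [DecidableEq E] (src dst : E → V) {m : ℕ}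
    (C : Fin m → Finset E) : Prop :=
  (∀ i, IsCycle src dst (C i)) ∧
  ∀ i, (C i \ (Finset.univ.filter (fun j => j < i)).biUnion C).card ≤ 11

/-- The edge cuts with exactly three edges which avoid `F`. -/
def threeCuts [Fintype V] [DecidableEq V] [Fintype E] [DecidableEq E] (src dst : E → V)
    (F : Finset E) : Finset (Finset E) :=
  Finset.univ.filter (fun D => D.card = 3 ∧ Disjoint D F ∧ ∃ X : Finset V, boundary src dst X = D)

/-- The edges which join different members of the family `X`. -/
def joining [DecidableEq V] [Fintype E] (src dst : E → V) {t : ℕ} (X : Fin t → Finset V) :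
    Finset E :=
  Finset.univ.filter (fun e => ∃ i j, i ≠ j ∧ src e ∈ X i ∧ dst e ∈ X j)

/-- The number of the components of the graph with the vertices `V` and the edges `A`. -/
noncomputable def components (src dst : E → V) (A : Finset E) : ℕ :=
  Nat.card (SimpleGraph.fromRel
    (fun u v : V => ∃ e ∈ A, src e = u ∧ dst e = v)).ConnectedComponent

/-- The rank of `A` in the cycle matroid of the graph. -/
noncomputable def cycleRank [Fintype V] (src dst : E → V) (A : Finset E) : ℕ :=
  Fintype.card V - components src dst A

/-- The rank of `A` in the bond matroid of the graph (the dual of the cycle matroid). -/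
noncomputable def bondRank [Fintype V] [Fintype E] [DecidableEq E] (src dst : E → V)
    (A : Finset E) : ℕ :=
  A.card + cycleRank src dst Aᶜ - cycleRank src dst Finset.univ

/-- The characteristic polynomial of the bond matroid at the integer `x`. -/
noncomputable def bondCharPoly [Fintype V] [Fintype E] [DecidableEq E] (src dst : E → V)
    (x : ℤ) : ℤ :=
  ∑ A : Finset E, (-1) ^ A.card * x ^ (bondRank src dst Finset.univ - bondRank src dst A)

theorem isFlow_iff [DecidableEq V] [Fintype E] (src dst : E → V) (f : E → ℤ) :
    IsFlow src dst f ↔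
      ∀ v, ∑ e, f e * ((if src e = v then 1 else 0) - (if dst e = v then 1 else 0)) = 0 := by
  unfold IsFlow
  refine forall_congr' fun v => ?_
  rw [Finset.sum_filter, Finset.sum_filter, ← sub_eq_zero, ← Finset.sum_sub_distrib]
  have : ∀ e, (if src e = v then f e else 0) - (if dst e = v then f e else 0)
      = f e * ((if src e = v then 1 else 0) - (if dst e = v then 1 else 0)) := by
    intro e
    by_cases h1 : src e = v <;> by_cases h2 : dst e = v <;> simp [h1, h2]
  rw [Finset.sum_congr rfl (fun e _ => this e)]

theorem nzf [Fintype V] [DecidableEq V] [Fintype E] [DecidableEq E] (src dst : E → V)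
    (h : Pool.Agent.TH676.Z.FlowOn src dst ∅ ∅) : NZF src dst := by
  obtain ⟨f, h1, _, h3⟩ := h
  refine ⟨f, fun e => h3 e (Finset.notMem_empty _) (Finset.notMem_empty _), fun x => ?_⟩
  rw [← h1 x]
  unfold Pool.Agent.TH676.Z.bd
  refine Finset.sum_congr rfl fun e _ => ?_
  unfold ic
  by_cases h4 : src e = x <;> by_cases h5 : dst e = x <;> simp [h4, h5]

theorem charPoly_pos [Fintype V] [DecidableEq V] [Fintype E] [DecidableEq E] (src dst : E → V)
    (f : E → ℤ) (h1 : IsFlow src dst f) (h2 : ∀ e, 1 ≤ |f e| ∧ |f e| ≤ 4) (q : ℕ) (hq : 5 ≤ q) :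
    0 < bondCharPoly src dst q :=
  Pool.Agent.TH362.FP.chr_pos src dst f h2 h1 q hq

/-- the reduction modulo five of a flow with values in `{0, 1, -1}` -/
theorem mod5 [Fintype V] [DecidableEq V] [Fintype E] [DecidableEq E] (src dst : E → V)
    (C : Finset E) (h : IsCycle src dst C) :
    ∃ z : E → ZMod 5, (∀ v, Pool.Agent.TH676.Z.bd src dst z v = 0) ∧
      (∀ e, z e = 0 ∨ z e = 1 ∨ z e = -1) ∧ ∀ e, z e ≠ 0 ↔ e ∈ C := by
  obtain ⟨z, h1, h2, h3⟩ := h
  refine ⟨fun e => ((z e : ℤ) : ZMod 5), fun v => ?_, fun e => ?_, fun e => ?_⟩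
  · have h4 := h1 v
    rw [Finset.sum_filter, Finset.sum_filter, ← sub_eq_zero, ← Finset.sum_sub_distrib] at h4
    have h5 := congrArg (fun t : ℤ => (t : ZMod 5)) h4
    simp only [Int.cast_sum, Int.cast_sub, Int.cast_zero] at h5
    refine Eq.trans ?_ h5
    unfold Pool.Agent.TH676.Z.bd
    rw [Finset.sum_sub_distrib, Finset.sum_sub_distrib]
    congr 1 <;>
    · refine Finset.sum_congr rfl fun e _ => ?_
      split_ifs <;> simp
  · rcases h2 e with h | h | h <;> simp [h]
  · rw [← h3 e]
    have h10 : (1 : ZMod 5) ≠ 0 := by decide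
    rcases h2 e with h | h | h <;> simp [h, h10]

theorem result :
    ∀ (V E : Type) [Fintype V] [DecidableEq V] [Fintype E] [DecidableEq E] (src dst : E → V)
      (m : ℕ) (C : Fin m → Finset E), ShortCycles src dst C →
      ((threeCuts src dst (unionOf C)).card ≤ 125 ∨
        ∀ (t : ℕ) (X : Fin t → Finset V), 126 ≤ t → (∀ i j, i ≠ j → Disjoint (X i) (X j)) →
          (∀ i, (boundary src dst (X i)).card = 3 ∧
            Disjoint (boundary src dst (X i)) (unionOf C)) →
          2 * (joining src dst X).card ≤ t + 23) →
      (∀ Y : Finset V, (boundary src dst Y).card ≠ 1) →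
      (∃ f : E → ℤ, IsFlow src dst f ∧ ∀ e, 1 ≤ |f e| ∧ |f e| ≤ 4) ∧
      ∀ q : ℕ, 5 ≤ q → 0 < bondCharPoly src dst q := by
  intro V E _ _ _ _ src dst m C hC h hb
  have hfl := Pool.Agent.H789.F5.flow_of_three_lift Pool.Agent.Y335.FL.contract_all
    Pool.Agent.Y335.FL.ahl Pool.Agent.Y335.FL.lift_all src dst m C
    ⟨fun i => mod5 src dst (C i) (hC.1 i), hC.2⟩ h
    (fun Y _ => by rw [Finset.sdiff_empty]; exact hb Y)
  obtain ⟨F, hF, hF0⟩ := int_flow src dst (nzf src dst hfl)
  have hF1 := (isFlow_iff src dst F).mpr hF0
  exact ⟨⟨F, hF1, hF⟩, fun q hq => charPoly_pos src dst F hF1 hF q hq⟩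

/-- Consequence: at most 125 edge cuts have exactly three edges. -/
theorem fewThreeCuts (V E : Type) [Fintype V] [DecidableEq V] [Fintype E] [DecidableEq E]
    (src dst : E → V) (h : (threeCuts src dst ∅).card ≤ 125)
    (hb : ∀ Y : Finset V, (boundary src dst Y).card ≠ 1) :
    ∃ f : E → ℤ, IsFlow src dst f ∧ ∀ e, 1 ≤ |f e| ∧ |f e| ≤ 4 := by
  have h0 : unionOf (fun _ : Fin 0 => (∅ : Finset E)) = ∅ := by simp [unionOf]
  exact (result V E src dst 0 (fun _ => ∅) ⟨fun i => i.elim0, fun i => i.elim0⟩
    (Or.inl (by rw [h0]; exact h)) hb).1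

/-- Consequence: no 126 pairwise disjoint vertex sets have exactly three boundary edges each. -/
theorem noDisjointFamily (V E : Type) [Fintype V] [DecidableEq V] [Fintype E] [DecidableEq E]
    (src dst : E → V)
    (h : ¬ ∃ X : Fin 126 → Finset V, (∀ i j, i ≠ j → Disjoint (X i) (X j)) ∧
      ∀ i, (boundary src dst (X i)).card = 3)
    (hb : ∀ Y : Finset V, (boundary src dst Y).card ≠ 1) :
    ∃ f : E → ℤ, IsFlow src dst f ∧ ∀ e, 1 ≤ |f e| ∧ |f e| ≤ 4 := by
  refine (result V E src dst 0 (fun _ => ∅) ⟨fun i => i.elim0, fun i => i.elim0⟩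
    (Or.inr fun t X ht hd h3 => ?_) hb).1
  exact absurd ⟨fun i => X (Fin.castLE ht i), fun i j hij => hd _ _ (fun h => hij
    ((Fin.castLE_injective ht) h)), fun i => (h3 _).1⟩ h

end Pool.Agent.Results.MP_c8786f_co.FewThreeCuts
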