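import Mathlib
import Pool.Agent.Y335.FL.Main
import Pool.Agent.Y335.FL.Local11
import Pool.Agent.Helper151_VT.Conv
import Pool.Agent.Helper151_VT.Graph

set_option autoImplicit false

/-!
# Nowhere-zero 5-flows of vertex-transitive graphs (MP_c8786f_co)

Let `G` be a finite connected multigraph of degree at least two (loops not counted) whose
automorphism group is transitive on the vertices, and suppose that `G` has no nowhere-zero 5-flow.
Then there is a partition of the vertices into classes of size `3 ^ j` such that the contraction of
the classes gives (up to loops) a cubic multigraph `H` without a nowhere-zero 5-flow such that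

* `H` is vertex-transitive and 3-edge-connected, and all its edge cuts with three edges are stars
  of vertices;
* `H` has girth at least twelve (so it has no parallel edges);
* every vertex-transitive group of automorphisms of `H` is transitive on the edges (so that `H` is
  arc-transitive), or it preserves a 2-factor all whose circuits have the same odd length `l ≥ 13`
  (for example if `H` is a Cayley graph of a group `Γ` then the connection set consists of an element
  `x` of odd order `l ≥ 13`, its inverse and an involution);
* if `j > 0` then every vertex of `G` lies in a triangle whose pairs of vertices are joined by `m`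
  edges each, where `2 m + 1` is the degree of `G`.

In all other cases `G` has a nowhere-zero 5-flow, and the characteristic polynomial of the bond
matroid of `G` is positive at all integers `q ≥ 5`.  In particular (`simpleGraph`) this holds for all
connected vertex-transitive simple graphs of degree `k ≥ 2`, except perhaps if `k = 3` and the girth
is three or at least twelve; and in the case of girth three the graph is obtained from a smaller
cubic vertex-transitive graph by replacing the vertices by triangles (perhaps several times).

Proof.  Two edge cuts of minimum size three do not cross (submodularity and parity), and minimal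
sets with one or two boundary edges do not cross either.  Hence a set `X` with the minimum number
`λ ≤ 3` of boundary edges and at most half of the vertices (of minimum size if `λ < 3`) is a block of
the automorphism group, all its vertices have the same number `t` of boundary edges, and
`|X| t = λ`.  If `λ ≤ 2` then `G` is 2-regular or the images of `X` are pairs of vertices joined by
parallel edges, whose contraction is 2-regular.  If `λ = 3` then `X` is a vertex and `G` is cubic, or
`X` is a triangle with equal multiplicities; in the second case the images of `X` are contracted, and
the claim follows by induction, since circuits with at most eleven edges can be undone by the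
starting library `Y335/FL`.  If `λ ≥ 4`, or if the three-edge cuts are stars and there is a circuit
with at most eleven edges, then every edge cut with at most three edges meets a circuit with at most
eleven edges, and the starting library applies.  Finally, if `H` is cubic and the group `Γ` is not
transitive on its edges then an orbit is a perfect matching or a 2-factor, so there is an invariant
2-factor.  If its circuits have even length then `H` has three disjoint perfect matchings, and two
even edge sets give a nowhere-zero flow with values `±1, ±2, ±3`.
-/

namespace Pool.Agent.Results.MP_c8786f_co.VertexTransitive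

open Pool.Agent.Helper151_VT

theorem result :
    ∀ (V E : Type) [Fintype V] [DecidableEq V] [Fintype E] [DecidableEq E] (src dst : E → V),
      VertexTransitive src dst →
      (∀ X : Finset V, X.Nonempty → X ≠ Finset.univ → 1 ≤ (boundary src dst X).card) →
      (∀ x, 2 ≤ (boundary src dst {x}).card) →
      (HasFiveFlow src dst ∧ ∀ q : ℕ, 5 ≤ q → 0 < bondCharPoly src dst q) ∨
      ∃ (W : Type) (_ : Fintype W) (_ : DecidableEq W) (π : V → W) (j : ℕ),
        Function.Surjective π ∧
        (∀ w, (Finset.univ.filter (fun x => π x = w)).card = 3 ^ j) ∧
        VertexTransitive (π ∘ src) (π ∘ dst) ∧ Residual (π ∘ src) (π ∘ dst) ∧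
        (∀ Γ, TransitiveGroup (π ∘ src) (π ∘ dst) Γ →
          EdgeTransitiveGroup (π ∘ src) (π ∘ dst) Γ ∨ OddTwoFactor (π ∘ src) (π ∘ dst) Γ) ∧
        ¬ HasFiveFlow (π ∘ src) (π ∘ dst) ∧ (j ≠ 0 → Triangles src dst) := by
  intro V E _ _ _ _ src dst hT hconn hdeg
  by_cases hf : Pool.Agent.TH676.Z.FlowOn src dst ∅ ∅
  · exact Or.inl (of_flowOn src dst hf)
  · right
    obtain ⟨W, i1, i2, π, j, h1, h2, h4, h5, h6, h7, h8⟩ := reduction_all
      Pool.Agent.Y335.FL.lift_all
      (Pool.Agent.Y335.FL.local11 Pool.Agent.Y335.FL.quot' Pool.Agent.Y335.FL.lift_all)
      src dst hT hconn hdeg hf
    exact ⟨W, i1, i2, π, j, h1, h2, h4, h5, h6, fun h => h7 (to_flowOn _ _ h), h8⟩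

/-- The consequence for simple graphs. -/
theorem simpleGraph (V : Type) [Fintype V] [DecidableEq V] (G : SimpleGraph V)
    [DecidableRel G.Adj] (k : ℕ) (hk : 2 ≤ k) (hconn : G.Connected)
    (hreg : G.IsRegularOfDegree k) (hT : ∀ u v : V, ∃ φ : G ≃g G, φ u = v)
    (h : k = 3 → 4 ≤ G.girth ∧ G.girth ≤ 11) (src dst : G.edgeSet → V)
    (hE : ∀ e : G.edgeSet, s(src e, dst e) = (e : Sym2 V)) :
    HasFiveFlow src dst ∧ ∀ q : ℕ, 5 ≤ q → 0 < bondCharPoly src dst q :=
  of_flowOn src dst (simple_graph Pool.Agent.Y335.FL.lift_all
    (Pool.Agent.Y335.FL.local11 Pool.Agent.Y335.FL.quot' Pool.Agent.Y335.FL.lift_all) G k hk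
    hconn hreg hT h src dst hE)

end Pool.Agent.Results.MP_c8786f_co.VertexTransitive
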